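import Pool.Agent.Helper74.NM.St

/-! Project NM (MP_26f0da_lc), module LOC -/

set_option autoImplicit false

namespace Pool.Agent.Helper2.NM

open Pool.Agent.Helper74 Pool.Agent.Helper74.NM

private lemma loc1 (W : Type) (rk : W → Bool) (y : Lt W) (hy : ∀ a, ¬ P rk a y) :
    ∀ (w σ : List (Lt W)), Dead (P rk) op y w σ := by
  intro w
  induction w with
  | nil => intro σ; exact dead_nil _ _ _ _
  | cons a w ih =>
    intro σ
    exact (dead_cons _ _ _ _ _ _).2 ⟨fun _ => hy a, fun _ => ih _, fun _ _ _ _ => ih _⟩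

private lemma loc2 (W : Type) (rk : W → Bool) (y a : Lt W) (w : List (Lt W)) (ha : ¬ op a) :
    Dead (P rk) op y (a :: w) [] :=
  (dead_cons _ _ _ _ _ _).2 ⟨fun _ h => ha (p_op rk a y h), fun h => absurd h ha,
    fun x σ' h => by cases h⟩

private lemma drop_two (k m : ℕ) (h : m < k) :
    (List.range k).drop m = m :: (List.range k).drop (m + 1) := by
  rw [List.drop_eq_getElem_cons (by rw [List.length_range]; exact h), List.getElem_range]

private lemma loc4 (W : Type) (rk : W → Bool) (g : W × List W) (w : List (Lt W)) (n : ℕ) :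
    ∀ (d i : ℕ), i + d = n → ∀ j, j ≤ 2 * i →
    Dead (P rk) op (.e g j)
      ((((List.range (2 * n + 1)).drop (2 * i + 1)).map (.e g)) ++ .y g :: w) [] := by
  intro d
  induction d with
  | zero =>
    intro i hi j _
    have : (List.range (2 * n + 1)).drop (2 * i + 1) = [] := by
      apply List.drop_eq_nil_of_le
      rw [List.length_range]
      omega
    rw [this]
    exact loc2 W rk _ _ _ (by simp [op])
  | succ d ih =>
    intro i hi j hj
    rw [drop_two _ _ (by omega), drop_two _ _ (by omega), List.map_cons, List.map_cons,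
      List.cons_append, List.cons_append]
    refine (dead_cons _ _ _ _ _ _).2 ⟨?_, ?_, fun x σ' h => by cases h⟩
    · intro _ hP
      have h1 : j = (2 * i + 1) + 1 := hP.2.1
      omega
    · intro _
      refine (dead_cons _ _ _ _ _ _).2 ⟨(fun h => by cases h), ?_, ?_⟩
      · intro h
        exfalso
        have h1 : (2 * i + 1) + 1 = 0 ∨ Odd ((2 * i + 1) + 1) := h
        rcases h1 with h1 | ⟨c, h1⟩ <;> omega
      · intro x σ' hx _
        rw [List.cons.injEq] at hx
        obtain ⟨-, rfl⟩ := hx
        have h2 := ih (i + 1) (by omega) j (by omega)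
        rw [show 2 * (i + 1) + 1 = 2 * i + 1 + 1 + 1 by ring] at h2
        exact h2

/-- module LOC -/
theorem hLOC : StLOC := by
  intro W rk
  refine ⟨loc1 W rk, loc2 W rk, ?_, ?_⟩
  · intro g w
    refine (dead_cons _ _ _ _ _ _).2 ⟨fun _ h => h, ?_, fun x σ' h => by cases h⟩
    intro _
    refine (dead_cons _ _ _ _ _ _).2 ⟨(fun h => by cases h), fun h => absurd h (by simp [op]), ?_⟩
    intro x σ' hx _
    rw [List.cons.injEq] at hx
    obtain ⟨-, rfl⟩ := hx
    exact loc2 W rk _ _ _ (by simp [op])
  · intro g j w hj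
    rw [us_length] at hj ⊢
    rcases Nat.even_or_odd j with ⟨i, hi⟩ | ⟨i, hi⟩
    · have h := loc4 W rk g w g.2.length (g.2.length - i) i (by omega) j (by omega)
      rw [show j + 1 = 2 * i + 1 by omega]
      exact h
    · rw [drop_two _ _ (by omega), List.map_cons, List.cons_append]
      apply loc2
      intro h
      have h1 : j + 1 = 0 ∨ Odd (j + 1) := h
      rcases h1 with h1 | ⟨c, h1⟩ <;> omega

end Pool.Agent.Helper2.NM
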