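import Pool.Agent.Helper74.NM.St
import Pool.Agent.Helper74.DR.St

/-! Project NM (MP_26f0da_lc), module SYF -/

set_option autoImplicit false

namespace Pool.Agent.Helper2.NM

open Pool.Agent.Helper74 Pool.Agent.Helper74.NM

/-- module SYF -/
theorem hSYF (hNFM : Pool.Agent.Helper74.DR.StNFM) (hSIM : StSIM) (hTRF : StTRF) : StSYF := by
  intro α _ g
  obtain ⟨W, hW, rk, Pm, S, hP, hL⟩ := hNFM α g
  obtain ⟨u, h, hu, hh, hsim⟩ := hSIM α W rk Pm S hP
  have hF : ({x | x ∈ u} ∪ ⋃ a, {x | x ∈ h a} : Set (Lt W)).Finite :=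
    Set.Finite.union (List.finite_toSet u) (Set.finite_iUnion fun a => List.finite_toSet (h a))
  obtain ⟨n, R', d, hsymm, hNC⟩ := hTRF (Lt W) (fun a b => P rk a b ∨ P rk b a) _ hF
  refine ⟨n, R', u.map d, fun a => (h a).map d, hsymm (fun x y hxy => hxy.symm), ?_, ?_, ?_⟩
  · intro h0
    exact hu (List.map_eq_nil_iff.1 h0)
  · intro a h0
    exact hh a (List.map_eq_nil_iff.1 h0)
  · intro w hw
    rw [hL w hw, hsim w, hNC]
    · rw [List.map_append, List.map_flatMap]
    · intro x hx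
      rcases List.mem_append.1 hx with hx | hx
      · exact Or.inl hx
      · obtain ⟨a, _, ha⟩ := List.mem_flatMap.1 hx
        exact Or.inr (Set.mem_iUnion.2 ⟨a, ha⟩)

end Pool.Agent.Helper2.NM
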